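import Pool.Agent.K3h56.E2.Stm

/-!
Brick DICT of the project E2 of helper56: the quadratic extension which belongs to a quadratic
character.
-/

set_option autoImplicit false

open NumberField

noncomputable section

namespace Pool.Agent.K3h41.E2

theorem pm_one {u : ℂˣ} (h : u * u = 1) : u = 1 ∨ u = -1 := by
  have h1 : (u : ℂ) * u = 1 := by rw [← Units.val_mul, h, Units.val_one]
  rcases mul_self_eq_one_iff.1 h1 with h2 | h2
  · exact Or.inl (Units.ext h2)
  · right
    apply Units.ext
    rw [h2]
    simp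

theorem neg_one_ne : (-1 : ℂˣ) ≠ 1 := by
  intro h
  have h1 := congrArg Units.val h
  norm_num at h1

theorem index_two {G : Type} [CommGroup G] (χ : G →* ℂˣ) (h2 : ∀ g : G, χ g * χ g = 1)
    {g₀ : G} (h0 : χ g₀ ≠ 1) : χ.ker.index = 2 := by
  rw [Subgroup.index_eq_two_iff]
  have hg0 : χ g₀ = -1 := (pm_one (h2 g₀)).resolve_left h0
  refine ⟨g₀, fun b => ?_⟩
  rw [MonoidHom.mem_ker, MonoidHom.mem_ker, map_mul, hg0]
  rcases pm_one (h2 b) with h | h
  · right
    refine ⟨h, ?_⟩
    rw [h, one_mul]
    exact neg_one_ne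
  · left
    refine ⟨?_, ?_⟩
    · rw [h]
      simp
    · rw [h]
      exact neg_one_ne

theorem t_DICT : Pool.Agent.K3h56.E2.S_DICT := by
  intro F H G _ _ _ _ _ _ _ _ _ χ h2 hex
  obtain ⟨g₀, h0⟩ := hex
  have hcomm : SMulCommClass G F H := IsGaloisGroup.commutes
  have hg0 : χ g₀ = -1 := (pm_one (h2 g₀)).resolve_left h0
  set N : Subgroup G := χ.ker with hN
  let K : IntermediateField F H := FixedPoints.intermediateField N
  have hmemK : ∀ x : H, x ∈ K ↔ ∀ n : N, n • x = x := fun x => Iff.rfl
  have hgK : ∀ g : G, ∀ x ∈ K, g • x ∈ K := by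
    intro g x hx
    rw [hmemK] at hx ⊢
    intro n
    have h1 : n • g • x = g • n • x := by
      change (n : G) • g • x = g • (n : G) • x
      rw [smul_smul, mul_comm, ← smul_smul]
    rw [h1, hx n]
  have hone : ∀ g : G, χ g = 1 → ∀ x ∈ K, g • x = x := by
    intro g hg x hx
    exact (hmemK x).1 hx ⟨g, hg⟩
  have hneg : ∀ g : G, χ g ≠ 1 → ∀ x ∈ K, g • x = g₀ • x := by
    intro g hg x hx
    have h3 : χ g = -1 := (pm_one (h2 g)).resolve_left hg
    have h4 : χ (g₀⁻¹ * g) = 1 := by
      rw [map_mul, map_inv, hg0, h3, inv_mul_cancel]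
    have h5 := hone _ h4 x hx
    have h6 : g • x = g₀ • (g₀⁻¹ * g) • x := by
      rw [smul_smul, mul_inv_cancel_left]
    rw [h6, h5]
  let τ : K ≃ₐ[F] K :=
    { toFun := fun x => ⟨g₀ • (x : H), hgK g₀ x x.2⟩
      invFun := fun x => ⟨g₀⁻¹ • (x : H), hgK g₀⁻¹ x x.2⟩
      left_inv := fun x => Subtype.ext (inv_smul_smul g₀ (x : H))
      right_inv := fun x => Subtype.ext (smul_inv_smul g₀ (x : H))
      map_mul' := fun x y => Subtype.ext (smul_mul' g₀ (x : H) (y : H))
      map_add' := fun x y => Subtype.ext (smul_add g₀ (x : H) (y : H))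
      commutes' := fun r => Subtype.ext (smul_algebraMap g₀ r) }
  have hτ : ∀ x : K, algebraMap K H (τ x) = g₀ • algebraMap K H x := fun x => rfl
  have hdeg : Module.finrank F K = 2 := by
    have h3 : Module.finrank K H = Nat.card N :=
      IsGaloisGroup.finrank_fixedPoints_eq_card_subgroup G F H N
    have h4 := IsGaloisGroup.card_eq_finrank G F H
    have h5 := Module.finrank_mul_finrank F K H
    have h6 := N.card_mul_index
    rw [index_two χ h2 h0, h4, ← h5, h3] at h6
    have h7 : 0 < Nat.card N := Nat.card_pos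
    have h8 : Nat.card N * 2 = Nat.card N * Module.finrank F K := by
      rw [h6, mul_comm]
    exact (Nat.eq_of_mul_eq_mul_left h7 h8).symm
  have hne : τ ≠ AlgEquiv.refl := by
    intro h
    have h3 : ∀ g : G, ∀ x ∈ K, g • x = x := by
      intro g x hx
      by_cases hg : χ g = 1
      · exact hone g hg x hx
      · rw [hneg g hg x hx]
        have h4 : τ ⟨x, hx⟩ = ⟨x, hx⟩ := by rw [h]; rfl
        exact congrArg Subtype.val h4
    have h4 : K = ⊥ := by
      rw [eq_bot_iff]
      intro x hx
      obtain ⟨a, ha⟩ := (IsGaloisGroup.isInvariant (G := G) (A := F) (B := H)).isInvariant x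
        (fun g => h3 g x hx)
      rw [IntermediateField.mem_bot]
      exact ⟨a, ha⟩
    have h5 : Module.finrank F K = 1 := by
      rw [h4]
      exact IntermediateField.finrank_bot
    omega
  refine ⟨K, inferInstance, inferInstance, inferInstance, inferInstance, τ, ?_⟩
  exact
    { quad := ⟨hdeg, hne⟩
      tower := inferInstance
      one := fun g hg x => hone g hg x x.2
      neg := fun g hg x => by
        rw [hτ]
        exact hneg g hg x x.2
      sq := h2
      ex := ⟨g₀, h0⟩
      fix := fun y hy => ⟨⟨y, (hmemK y).2 fun n => hy n n.2⟩, rfl⟩ }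

end Pool.Agent.K3h41.E2
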